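import Mathlib

/-!
# The logarithmic series of the determinant of a symmetric integer matrix
-/

set_option autoImplicit false

namespace Pool.Agent.V8H36.LS

open Finset Matrix

variable {Y : Type} [Fintype Y] [DecidableEq Y]

/-- Diagonalisation, with the bounds of the eigenvalues. -/
theorem diag (A : Matrix Y Y ℝ) (hs : Aᵀ = A) (c : ℝ)
    (h0 : ∀ v : Y → ℝ, 0 ≤ v ⬝ᵥ (A *ᵥ v))
    (h1 : ∀ v : Y → ℝ, v ⬝ᵥ (A *ᵥ v) ≤ c * ∑ z, v z ^ 2) :
    ∃ (V : Matrix Y Y ℝ) (l : Y → ℝ), V * Vᵀ = 1 ∧ Vᵀ * V = 1 ∧ A = V * diagonal l * Vᵀ ∧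
      ∀ j, 0 ≤ l j ∧ l j ≤ c := by
  have hA : A.IsHermitian := by
    rw [Matrix.IsHermitian, Matrix.conjTranspose_eq_transpose_of_trivial]
    exact hs
  set V : Matrix Y Y ℝ := (hA.eigenvectorUnitary : Matrix Y Y ℝ) with hV
  have e1 : star V = Vᵀ := by
    rw [Matrix.star_eq_conjTranspose, Matrix.conjTranspose_eq_transpose_of_trivial]
  have hVV : V * Vᵀ = 1 := by
    rw [← e1]
    exact Unitary.coe_mul_star_self hA.eigenvectorUnitary
  have hVV' : Vᵀ * V = 1 := by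
    rw [← e1]
    exact Unitary.coe_star_mul_self hA.eigenvectorUnitary
  have hAV : A = V * diagonal hA.eigenvalues * Vᵀ := by
    have h := hA.spectral_theorem
    rw [Unitary.conjStarAlgAut_apply] at h
    rw [← e1]
    exact h
  refine ⟨V, hA.eigenvalues, hVV, hVV', hAV, fun j => ?_⟩
  have e2 : A *ᵥ (fun z => V z j) = hA.eigenvalues j • (fun z => V z j) := by
    have := hA.mulVec_eigenvectorBasis j
    exact this
  have e3 : ∑ z, V z j ^ 2 = 1 := by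
    have h := congrFun (congrFun hVV' j) j
    rw [Matrix.mul_apply, Matrix.one_apply_eq] at h
    rw [← h]
    refine Finset.sum_congr rfl fun z _ => ?_
    rw [Matrix.transpose_apply, sq]
  have e4 : (fun z => V z j) ⬝ᵥ (A *ᵥ (fun z => V z j)) = hA.eigenvalues j := by
    rw [e2, dotProduct_smul, smul_eq_mul]
    have : (fun z => V z j) ⬝ᵥ (fun z => V z j) = 1 := by
      rw [dotProduct, ← e3]
      exact Finset.sum_congr rfl fun z _ => (sq _).symm
    rw [this, mul_one]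
  have h2 := h0 (fun z => V z j)
  have h3 := h1 (fun z => V z j)
  rw [e4] at h2 h3
  rw [e3, mul_one] at h3
  exact ⟨h2, h3⟩

theorem pow_diag (V : Matrix Y Y ℝ) (l : Y → ℝ) (h : V * Vᵀ = 1) (h' : Vᵀ * V = 1) (k : ℕ) :
    (V * diagonal l * Vᵀ) ^ k = V * diagonal (fun j => l j ^ k) * Vᵀ := by
  induction k with
  | zero =>
    have : diagonal (fun j => l j ^ 0) = (1 : Matrix Y Y ℝ) := by
      rw [← Matrix.diagonal_one]
      congr 1
    rw [this, Matrix.mul_one, pow_zero, h]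
  | succ k ih =>
    have e : diagonal (fun j => l j ^ (k + 1)) = diagonal (fun j => l j ^ k) * diagonal l := by
      rw [Matrix.diagonal_mul_diagonal]
      congr 1
    calc (V * diagonal l * Vᵀ) ^ (k + 1)
        = (V * diagonal (fun j => l j ^ k) * Vᵀ) * (V * diagonal l * Vᵀ) := by rw [pow_succ, ih]
      _ = V * diagonal (fun j => l j ^ k) * (Vᵀ * V) * diagonal l * Vᵀ := by
        simp only [Matrix.mul_assoc]
      _ = V * diagonal (fun j => l j ^ (k + 1)) * Vᵀ := by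
        rw [h', Matrix.mul_one, e]
        simp only [Matrix.mul_assoc]

theorem trace_diag (V : Matrix Y Y ℝ) (l : Y → ℝ) (h' : Vᵀ * V = 1) :
    (V * diagonal l * Vᵀ).trace = ∑ j, l j := by
  rw [Matrix.trace_mul_comm, ← Matrix.mul_assoc, h', Matrix.one_mul, Matrix.trace_diagonal]

theorem det_diag (V : Matrix Y Y ℝ) (l : Y → ℝ) (h : V * Vᵀ = 1) (c : ℝ) :
    (c • (1 : Matrix Y Y ℝ) - V * diagonal l * Vᵀ).det = ∏ j, (c - l j) := by
  have e : c • (1 : Matrix Y Y ℝ) - V * diagonal l * Vᵀ = V * diagonal (fun j => c - l j) * Vᵀ := by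
    have e1 : diagonal (fun j => c - l j) = c • (1 : Matrix Y Y ℝ) - diagonal l := by
      rw [← Matrix.diagonal_one, ← Matrix.diagonal_smul, Matrix.diagonal_sub]
      congr 1
      funext j
      simp
    rw [e1, Matrix.mul_sub, Matrix.sub_mul, Matrix.mul_smul, Matrix.mul_one, Matrix.smul_mul, h]
  have e2 : V.det * Vᵀ.det = 1 := by rw [← Matrix.det_mul, h, Matrix.det_one]
  rw [e, Matrix.det_mul, Matrix.det_mul, Matrix.det_diagonal, mul_right_comm, e2, one_mul]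

theorem map_pow_cast (B : Matrix Y Y ℤ) (k : ℕ) :
    (B.map (fun x : ℤ => (x : ℝ))) ^ k = (B ^ k).map (fun x : ℤ => (x : ℝ)) := by
  have h := map_pow (Int.castRingHom ℝ).mapMatrix B k
  exact h.symm

theorem diag_bound (B : Matrix Y Y ℤ) (hs : Bᵀ = B) (C : ℕ) (hC : 1 ≤ C)
    (h0 : ∀ v : Y → ℝ, 0 ≤ v ⬝ᵥ ((B.map (fun x : ℤ => (x : ℝ))) *ᵥ v))
    (h1 : ∀ v : Y → ℝ, v ⬝ᵥ ((B.map (fun x : ℤ => (x : ℝ))) *ᵥ v) ≤ ((C : ℝ) - 1) * ∑ z, v z ^ 2)
    (k : ℕ) (y : Y) : |(((B ^ k) y y : ℤ) : ℝ)| ≤ ((C : ℝ) - 1) ^ k := by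
  have hs' : (B.map (fun x : ℤ => (x : ℝ)))ᵀ = B.map (fun x : ℤ => (x : ℝ)) := by
    rw [← Matrix.transpose_map, hs]
  obtain ⟨V, l, hV, hV', hA, hl⟩ := diag _ hs' _ h0 h1
  have e1 : (((B ^ k) y y : ℤ) : ℝ) = ((B.map (fun x : ℤ => (x : ℝ))) ^ k) y y := by
    rw [map_pow_cast, Matrix.map_apply]
  have e2 : ((B.map (fun x : ℤ => (x : ℝ))) ^ k) y y = ∑ j, l j ^ k * V y j ^ 2 := by
    rw [hA, pow_diag V l hV hV' k, Matrix.mul_apply]
    refine Finset.sum_congr rfl fun j _ => ?_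
    rw [Matrix.mul_diagonal, Matrix.transpose_apply]
    ring
  have e3 : ∑ j, V y j ^ 2 = 1 := by
    have h := congrFun (congrFun hV y) y
    rw [Matrix.mul_apply, Matrix.one_apply_eq] at h
    rw [← h]
    refine Finset.sum_congr rfl fun z _ => ?_
    rw [Matrix.transpose_apply, sq]
  have e4 : 0 ≤ ∑ j, l j ^ k * V y j ^ 2 :=
    Finset.sum_nonneg fun j _ => mul_nonneg (pow_nonneg (hl j).1 k) (sq_nonneg _)
  rw [e1, e2, abs_of_nonneg e4]
  calc ∑ j, l j ^ k * V y j ^ 2 ≤ ∑ j, ((C : ℝ) - 1) ^ k * V y j ^ 2 :=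
        Finset.sum_le_sum fun j _ =>
          mul_le_mul_of_nonneg_right (pow_le_pow_left₀ (hl j).1 (hl j).2 k) (sq_nonneg _)
    _ = ((C : ℝ) - 1) ^ k := by rw [← Finset.mul_sum, e3, mul_one]

theorem log_series (B : Matrix Y Y ℤ) (hs : Bᵀ = B) (C : ℕ) (hC : 1 ≤ C)
    (h0 : ∀ v : Y → ℝ, 0 ≤ v ⬝ᵥ ((B.map (fun x : ℤ => (x : ℝ))) *ᵥ v))
    (h1 : ∀ v : Y → ℝ, v ⬝ᵥ ((B.map (fun x : ℤ => (x : ℝ))) *ᵥ v) ≤ ((C : ℝ) - 1) * ∑ z, v z ^ 2)
    (K : ℕ) :
    |Real.log ((C : ℝ) • (1 : Matrix Y Y ℝ) - B.map (fun x : ℤ => (x : ℝ))).det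
      - ((Fintype.card Y : ℝ) * Real.log C - ∑ k ∈ range K, (((B ^ (k + 1)).trace : ℤ) : ℝ) /
        (((k : ℝ) + 1) * (C : ℝ) ^ (k + 1)))|
      ≤ (Fintype.card Y : ℝ) * ((C : ℝ) * (1 - 1 / (C : ℝ)) ^ (K + 1)) := by
  have hs' : (B.map (fun x : ℤ => (x : ℝ)))ᵀ = B.map (fun x : ℤ => (x : ℝ)) := by
    rw [← Matrix.transpose_map, hs]
  obtain ⟨V, l, hV, hV', hA, hl⟩ := diag _ hs' _ h0 h1
  have hC1 : (1 : ℝ) ≤ C := by exact_mod_cast hC
  have hC0 : (0 : ℝ) < C := by linarith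
  set x : Y → ℝ := fun j => l j / C with hx
  have hx0 : ∀ j, 0 ≤ x j := fun j => div_nonneg (hl j).1 hC0.le
  have hx1 : ∀ j, x j ≤ 1 - 1 / C := fun j => by
    rw [hx]
    have : (1 : ℝ) - 1 / C = (C - 1) / C := by field_simp
    rw [this]
    exact div_le_div_of_nonneg_right (hl j).2 hC0.le
  have hiC : 0 < 1 / (C : ℝ) := by positivity
  have e1 : Real.log ((C : ℝ) • (1 : Matrix Y Y ℝ) - B.map (fun x : ℤ => (x : ℝ))).det =
      ∑ j, (Real.log C + Real.log (1 - x j)) := by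
    rw [hA, det_diag V l hV, Real.log_prod]
    · refine Finset.sum_congr rfl fun j _ => ?_
      have h5 : (1 : ℝ) - x j ≠ 0 := by
        have := hx1 j
        linarith
      rw [← Real.log_mul hC0.ne' h5]
      congr 1
      rw [hx]
      field_simp
    · intro j _
      have := (hl j).2
      linarith
  have e2 : ∑ k ∈ range K, (((B ^ (k + 1)).trace : ℤ) : ℝ) / (((k : ℝ) + 1) * (C : ℝ) ^ (k + 1)) =
      ∑ j, ∑ k ∈ range K, x j ^ (k + 1) / (k + 1) := by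
    rw [Finset.sum_comm]
    refine Finset.sum_congr rfl fun k _ => ?_
    have e3 : (((B ^ (k + 1)).trace : ℤ) : ℝ) = ∑ j, l j ^ (k + 1) := by
      have : (((B ^ (k + 1)).trace : ℤ) : ℝ) = ((B.map (fun x : ℤ => (x : ℝ))) ^ (k + 1)).trace := by
        rw [map_pow_cast, Matrix.trace, Matrix.trace, Int.cast_sum]
        rfl
      rw [this, hA, pow_diag V l hV hV', trace_diag _ _ hV']
    rw [e3, Finset.sum_div]
    refine Finset.sum_congr rfl fun j _ => ?_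
    rw [hx]
    simp only
    rw [div_pow, div_div, mul_comm]
  have e4 : Real.log ((C : ℝ) • (1 : Matrix Y Y ℝ) - B.map (fun x : ℤ => (x : ℝ))).det
      - ((Fintype.card Y : ℝ) * Real.log C - ∑ k ∈ range K, (((B ^ (k + 1)).trace : ℤ) : ℝ) /
        (((k : ℝ) + 1) * (C : ℝ) ^ (k + 1))) =
      ∑ j, ((∑ k ∈ range K, x j ^ (k + 1) / (k + 1)) + Real.log (1 - x j)) := by
    rw [e1, e2, Finset.sum_add_distrib, Finset.sum_add_distrib, Finset.sum_const, Finset.card_univ,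
      nsmul_eq_mul]
    ring
  rw [e4]
  refine (Finset.abs_sum_le_sum_abs _ _).trans ?_
  have e5 : ∀ j ∈ (Finset.univ : Finset Y),
      |(∑ k ∈ range K, x j ^ (k + 1) / (k + 1)) + Real.log (1 - x j)| ≤
        (C : ℝ) * (1 - 1 / (C : ℝ)) ^ (K + 1) := by
    intro j _
    have h4 : |x j| < 1 := by
      rw [abs_of_nonneg (hx0 j)]
      have := hx1 j
      linarith
    have h5 := Real.abs_log_sub_add_sum_range_le h4 K
    rw [abs_of_nonneg (hx0 j)] at h5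
    refine h5.trans ?_
    have h6 : 1 / (C : ℝ) ≤ 1 - x j := by
      have := hx1 j
      linarith
    rw [div_le_iff₀ (by linarith)]
    calc x j ^ (K + 1) ≤ (1 - 1 / (C : ℝ)) ^ (K + 1) := pow_le_pow_left₀ (hx0 j) (hx1 j) _
      _ = (C : ℝ) * (1 - 1 / (C : ℝ)) ^ (K + 1) * (1 / C) := by field_simp
      _ ≤ (C : ℝ) * (1 - 1 / (C : ℝ)) ^ (K + 1) * (1 - x j) := by
        refine mul_le_mul_of_nonneg_left h6 ?_
        have : (0 : ℝ) ≤ 1 - 1 / C := (hx0 j).trans (hx1 j)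
        positivity
  refine (Finset.sum_le_sum e5).trans ?_
  rw [Finset.sum_const, Finset.card_univ, nsmul_eq_mul]

end Pool.Agent.V8H36.LS
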